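import Pool.Agent.H28.EN.Targets

/-!
# Row MID: the wave in the middle of two waves
-/

set_option autoImplicit false

open Finset Pool.Agent.H6.N4D Pool.Agent.H93.EB Pool.Agent.H28.EN

namespace Pool.Agent.H69.EN

theorem pf_MID : T_MID := by
  intro f N n θ φ r s hN hTop
  have hN0 : (N : ℝ) ≠ 0 := by
    have : (0 : ℝ) < N := by exact_mod_cast hN
    exact this.ne'
  have h1 := hTop (th N θ (s / 2)) (ph N n φ (r / 2) (s / 2))
  have hmid : G f N n (th N θ (s / 2)) (ph N n φ (r / 2) (s / 2)) =
      (∑ m ∈ Ioc n (n + N), f m * Real.cos (2 * Real.pi * (θ * m + φ) +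
        Real.pi * (r + s * tt N n m))) / N := by
    unfold G
    congr 1
    refine sum_congr rfl fun m _ => ?_
    congr 2
    unfold th ph tt
    field_simp
    ring
  have hP' : G f N n (th N θ s) (ph N n φ r s) =
      (∑ m ∈ Ioc n (n + N), f m * Real.cos (2 * Real.pi * (θ * m + φ) +
        2 * (Real.pi * (r + s * tt N n m)))) / N := by
    unfold G
    congr 1
    refine sum_congr rfl fun m _ => ?_
    congr 2
    unfold th ph tt
    field_simp
    ring
  have hkey : 2 * ((∑ m ∈ Ioc n (n + N), f m *
      (Real.cos (2 * Real.pi * (θ * m + φ) + Real.pi * (r + s * tt N n m)) *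
        (1 - Real.cos (Real.pi * (r + s * tt N n m))))) / N) =
      2 * G f N n (th N θ (s / 2)) (ph N n φ (r / 2) (s / 2)) - G f N n θ φ -
        G f N n (th N θ s) (ph N n φ r s) := by
    rw [hmid, hP']
    unfold G
    rw [← mul_div_assoc, ← mul_div_assoc, ← sub_div, ← sub_div, mul_sum, mul_sum,
      ← sum_sub_distrib, ← sum_sub_distrib]
    congr 1
    refine sum_congr rfl fun m _ => ?_
    have hc : ∀ A B : ℝ, Real.cos A + Real.cos (A + 2 * B) =
        2 * (Real.cos (A + B) * Real.cos B) := by
      intro A B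
      rw [Real.cos_add A (2 * B), Real.cos_add A B, Real.cos_two_mul, Real.sin_two_mul]
      ring
    have := hc (2 * Real.pi * (θ * m + φ)) (Real.pi * (r + s * tt N n m))
    linear_combination (f m) * this
  rw [hkey]
  linarith

end Pool.Agent.H69.EN
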