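import Pool.Agent.H65.EN.Targets

/-!
# Row PXC of the board enx_modules: Chebyshev's inequality with classes
-/

set_option autoImplicit false

namespace Pool.Agent.H69.EN

open Finset MeasureTheory
open Pool.Agent.H24.CL Pool.Agent.H24.LV Pool.Agent.H31.LV Pool.Agent.H50.LV Pool.Agent.H65.EN

theorem e_eq (h : ℕ) (y : UnitAddCircle) : e (h • y) = fourier (T := 1) (h : ℤ) y := by
  unfold e
  rw [fourier_apply, natCast_zsmul]

theorem fi (n : ℤ) : Integrable (fun y : UnitAddCircle => fourier (T := 1) n y) volume := by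
  refine (integrable_const (1 : ℂ)).mono (map_continuous (fourier n)).aestronglyMeasurable
    (ae_of_all _ fun y => ?_)
  rw [fourier_apply, Circle.norm_coe, norm_one]

theorem int_fourier (n : ℤ) :
    ∫ y : UnitAddCircle, fourier (T := 1) n y = if n = 0 then 1 else 0 := by
  split_ifs with h
  · subst h
    simp only [fourier_zero]
    have h1 : (volume : Measure UnitAddCircle).real Set.univ = 1 := by
      rw [Measure.real, UnitAddCircle.measure_univ, ENNReal.toReal_one]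
    rw [integral_const, h1, one_smul]
  · exact integral_eq_zero_of_add_right_eq_neg (μ := volume)
      (fourier_add_half_inv_index h one_pos)

/-- Parseval -/
theorem pars (S : Finset ℕ) (a : ℕ → ℂ) :
    Integrable (fun y : UnitAddCircle => ‖∑ h ∈ S, a h * e (h • y)‖ ^ 2) volume ∧
      ∫ y : UnitAddCircle, ‖∑ h ∈ S, a h * e (h • y)‖ ^ 2 = ∑ h ∈ S, ‖a h‖ ^ 2 := by
  have h1 : ∀ y : UnitAddCircle, ((‖∑ h ∈ S, a h * e (h • y)‖ ^ 2 : ℝ) : ℂ) =
      ∑ h ∈ S, ∑ h' ∈ S, (a h * (starRingEnd ℂ) (a h')) *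
        fourier (T := 1) ((h : ℤ) - (h' : ℤ)) y := by
    intro y
    push_cast
    rw [← Complex.mul_conj', map_sum, sum_mul_sum]
    refine sum_congr rfl fun h _ => sum_congr rfl fun h' _ => ?_
    rw [map_mul, e_eq, e_eq, ← fourier_neg, sub_eq_add_neg, fourier_add]
    ring
  have hi : ∀ h ∈ S, Integrable (fun y : UnitAddCircle => ∑ h' ∈ S,
      (a h * (starRingEnd ℂ) (a h')) * fourier (T := 1) ((h : ℤ) - (h' : ℤ)) y) volume :=
    fun h _ => integrable_finset_sum _ fun h' _ => (fi _).const_mul _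
  have h2 : Integrable (fun y : UnitAddCircle =>
      ((‖∑ h ∈ S, a h * e (h • y)‖ ^ 2 : ℝ) : ℂ)) volume := by
    simp only [h1]
    exact integrable_finset_sum _ hi
  refine ⟨by
    have h2r := h2.re
    simpa only [RCLike.re_eq_complex_re, Complex.ofReal_re] using h2r, ?_⟩
  have h3 : ((∫ y : UnitAddCircle, ‖∑ h ∈ S, a h * e (h • y)‖ ^ 2 : ℝ) : ℂ) =
      ((∑ h ∈ S, ‖a h‖ ^ 2 : ℝ) : ℂ) := by
    rw [← integral_complex_ofReal]
    simp only [h1]
    rw [integral_finset_sum _ hi]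
    push_cast
    refine sum_congr rfl fun h hh => ?_
    rw [integral_finset_sum _ fun h' _ => (fi _).const_mul _]
    simp only [integral_const_mul, int_fourier]
    rw [sum_eq_single h]
    · rw [sub_self, if_pos rfl, mul_one, Complex.mul_conj']
    · intro h' _ hne
      rw [if_neg (by
        intro h0
        apply hne
        omega), mul_zero]
    · intro h0
      exact absurd hh h0
  exact_mod_cast h3

/-- Chebyshev -/
theorem cheb (S : Finset ℕ) (a : ℕ → ℂ) (t : ℝ) (ht : 0 < t) :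
    volume.real {y : UnitAddCircle | 1 / t ≤ ‖∑ h ∈ S, a h * e (h • y)‖} ≤
      t ^ 2 * ∑ h ∈ S, ‖a h‖ ^ 2 := by
  obtain ⟨hi, hv⟩ := pars S a
  have h1 := mul_meas_ge_le_integral_of_nonneg (μ := (volume : Measure UnitAddCircle))
    (ae_of_all _ fun y => sq_nonneg ‖∑ h ∈ S, a h * e (h • y)‖) hi ((1 / t) ^ 2)
  have h2 : volume.real {y : UnitAddCircle | 1 / t ≤ ‖∑ h ∈ S, a h * e (h • y)‖} ≤
      volume.real {y : UnitAddCircle | (1 / t) ^ 2 ≤ ‖∑ h ∈ S, a h * e (h • y)‖ ^ 2} := by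
    refine measureReal_mono fun y hy => ?_
    have hy' : 1 / t ≤ ‖∑ h ∈ S, a h * e (h • y)‖ := hy
    show (1 / t) ^ 2 ≤ ‖∑ h ∈ S, a h * e (h • y)‖ ^ 2
    exact pow_le_pow_left₀ (by positivity) hy' 2
  rw [hv] at h1
  have h3 : t ^ 2 * ((1 / t) ^ 2 * volume.real {y : UnitAddCircle |
      (1 / t) ^ 2 ≤ ‖∑ h ∈ S, a h * e (h • y)‖ ^ 2}) ≤ t ^ 2 * ∑ h ∈ S, ‖a h‖ ^ 2 :=
    mul_le_mul_of_nonneg_left h1 (by positivity)
  have h4 : t ^ 2 * (1 / t) ^ 2 = 1 := by
    field_simp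
  rw [← mul_assoc, h4, one_mul] at h3
  exact h2.trans h3

/-- one class -/
theorem cls (S : Finset ℕ) (a : ℕ → ℂ) (J : ℝ) (hJ : 0 < J) (s : ℕ) (hs : 2 ≤ s) :
    volume.real {y : UnitAddCircle | 1 / J ≤ ‖∑ h ∈ S, a h * e (h • y)‖} ≤
      (2 * J) ^ s * ((S.card : ℝ) ^ (s - 2) * ∑ h ∈ S, ‖a h‖ ^ s) := by
  classical
  have hR : 0 ≤ (2 * J) ^ s * ((S.card : ℝ) ^ (s - 2) * ∑ h ∈ S, ‖a h‖ ^ s) :=
    mul_nonneg (by positivity) (mul_nonneg (by positivity)
      (sum_nonneg fun h _ => by positivity))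
  rcases S.eq_empty_or_nonempty with rfl | hne
  · have h1 : {y : UnitAddCircle | 1 / J ≤ ‖∑ h ∈ (∅ : Finset ℕ), a h * e (h • y)‖} = ∅ := by
      ext y
      simp [hJ]
    rw [h1, measureReal_empty]
    exact hR
  have hB : (0 : ℝ) < S.card := by exact_mod_cast card_pos.2 hne
  obtain ⟨θ, hθ⟩ : ∃ θ : ℝ, θ = 1 / (2 * J * S.card) := ⟨_, rfl⟩
  have hsub : {y : UnitAddCircle | 1 / J ≤ ‖∑ h ∈ S, a h * e (h • y)‖} ⊆
      {y : UnitAddCircle | 1 / (2 * J) ≤
        ‖∑ h ∈ S.filter (fun h => θ ≤ ‖a h‖), a h * e (h • y)‖} := by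
    intro y hy
    have hy' : 1 / J ≤ ‖∑ h ∈ S, a h * e (h • y)‖ := hy
    show 1 / (2 * J) ≤ _
    have h1 := sum_filter_add_sum_filter_not S (fun h => θ ≤ ‖a h‖) (fun h => a h * e (h • y))
    rw [← h1] at hy'
    have h2 := hy'.trans (norm_add_le _ _)
    have h3 : ‖∑ h ∈ S.filter (fun h => ¬ θ ≤ ‖a h‖), a h * e (h • y)‖ ≤ 1 / (2 * J) := by
      calc _ ≤ ∑ h ∈ S.filter (fun h => ¬ θ ≤ ‖a h‖), ‖a h * e (h • y)‖ := norm_sum_le _ _
        _ ≤ ∑ h ∈ S.filter (fun h => ¬ θ ≤ ‖a h‖), θ := by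
            refine sum_le_sum fun h hh => ?_
            rw [norm_mul]
            unfold e
            rw [Circle.norm_coe, mul_one]
            exact (not_le.1 (mem_filter.1 hh).2).le
        _ = ((S.filter (fun h => ¬ θ ≤ ‖a h‖)).card : ℝ) * θ := by
            rw [sum_const, nsmul_eq_mul]
        _ ≤ (S.card : ℝ) * θ := by
            refine mul_le_mul_of_nonneg_right ?_ (by rw [hθ]; positivity)
            exact_mod_cast card_filter_le _ _
        _ = 1 / (2 * J) := by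
            rw [hθ]
            field_simp
    have h4 : 1 / J = 1 / (2 * J) + 1 / (2 * J) := by
      field_simp
      norm_num
    linarith
  refine (measureReal_mono hsub).trans ((cheb _ a (2 * J) (by positivity)).trans ?_)
  have h5 : ∀ h ∈ S.filter (fun h => θ ≤ ‖a h‖),
      ‖a h‖ ^ 2 ≤ (2 * J * S.card) ^ (s - 2) * ‖a h‖ ^ s := by
    intro h hh
    have h6 : θ ≤ ‖a h‖ := (mem_filter.1 hh).2
    have h7 : 1 ≤ 2 * J * S.card * ‖a h‖ := by
      have h8 := mul_le_mul_of_nonneg_left h6 (show 0 ≤ 2 * J * S.card by positivity)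
      have h9 : 2 * J * S.card * θ = 1 := by
        rw [hθ]
        field_simp
      rwa [h9] at h8
    have h10 : (1 : ℝ) ≤ (2 * J * S.card * ‖a h‖) ^ (s - 2) := one_le_pow₀ h7
    calc ‖a h‖ ^ 2 = ‖a h‖ ^ 2 * 1 := (mul_one _).symm
      _ ≤ ‖a h‖ ^ 2 * (2 * J * S.card * ‖a h‖) ^ (s - 2) :=
          mul_le_mul_of_nonneg_left h10 (by positivity)
      _ = (2 * J * S.card) ^ (s - 2) * ‖a h‖ ^ (s - 2 + 2) := by
          rw [mul_pow, pow_add]
          ring
      _ = _ := by rw [Nat.sub_add_cancel hs]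
  calc (2 * J) ^ 2 * ∑ h ∈ S.filter (fun h => θ ≤ ‖a h‖), ‖a h‖ ^ 2 ≤
        (2 * J) ^ 2 * ∑ h ∈ S.filter (fun h => θ ≤ ‖a h‖),
          (2 * J * S.card) ^ (s - 2) * ‖a h‖ ^ s :=
        mul_le_mul_of_nonneg_left (sum_le_sum h5) (by positivity)
    _ ≤ (2 * J) ^ 2 * ∑ h ∈ S, (2 * J * S.card) ^ (s - 2) * ‖a h‖ ^ s := by
        refine mul_le_mul_of_nonneg_left ?_ (by positivity)
        exact sum_le_sum_of_subset_of_nonneg (filter_subset _ _) fun h _ _ => by positivity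
    _ = (2 * J) ^ (s - 2 + 2) * ((S.card : ℝ) ^ (s - 2) * ∑ h ∈ S, ‖a h‖ ^ s) := by
        rw [← mul_sum, mul_pow (2 * J) (S.card : ℝ), pow_add]
        ring
    _ = _ := by rw [Nat.sub_add_cancel hs]

/-- the number of the elements of a class -/
theorem cls_card (K c0 n : ℕ) (hK : 1 ≤ K) (hc0 : 1 ≤ c0) (H : Finset ℕ)
    (hH : ∀ h ∈ H, 1 ≤ h ∧ c0 ∣ K * h ∧ Nat.log 2 h = n) (h0 : ℕ) (hh0 : h0 ∈ H) :
    H.card * c0 ≤ 2 * K * h0 := by
  obtain ⟨c', m', hcop, e1, e2⟩ := Nat.exists_coprime c0 K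
  obtain ⟨g, hg⟩ : ∃ g, g = Nat.gcd c0 K := ⟨_, rfl⟩
  rw [← hg] at e1 e2
  have hg0 : 0 < g := by
    rw [hg]
    exact Nat.gcd_pos_of_pos_left _ (by omega)
  have hgK : g ≤ K := by
    rw [hg]
    exact Nat.gcd_le_right _ (by omega)
  have hc' : 0 < c' := by
    rcases Nat.eq_zero_or_pos c' with h | h
    · rw [h, zero_mul] at e1
      omega
    · exact h
  have hdiv : ∀ h ∈ H, c' ∣ h := by
    intro h hh
    have h1 := (hH h hh).2.1
    rw [e1, e2] at h1
    have h2 : c' * g ∣ (m' * h) * g := by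
      have h3 : m' * g * h = (m' * h) * g := by ring
      rwa [h3] at h1
    exact hcop.dvd_of_dvd_mul_left (Nat.dvd_of_mul_dvd_mul_right hg0 h2)
  have hcard : H.card ≤ (Ioc 0 (2 ^ (n + 1) / c')).card := by
    refine card_le_card_of_injOn (fun h => h / c') ?_ ?_
    · intro h hh
      have hh' := mem_coe.1 hh
      obtain ⟨a1, -, a3⟩ := hH h hh'
      rw [mem_coe, mem_Ioc]
      refine ⟨Nat.div_pos (Nat.le_of_dvd a1 (hdiv h hh')) hc', Nat.div_le_div_right ?_⟩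
      have := Nat.lt_pow_succ_log_self one_lt_two h
      rw [a3] at this
      exact this.le
    · intro h hh h' hh' hq
      have b1 := Nat.div_mul_cancel (hdiv h (mem_coe.1 hh))
      have b2 := Nat.div_mul_cancel (hdiv h' (mem_coe.1 hh'))
      have hq' : h / c' = h' / c' := hq
      rw [← b1, ← b2, hq']
  rw [Nat.card_Ioc, Nat.sub_zero] at hcard
  have h3 : H.card * c' ≤ 2 ^ (n + 1) := (Nat.mul_le_mul_right c' hcard).trans
    (Nat.div_mul_le_self _ _)
  obtain ⟨a1, -, a3⟩ := hH h0 hh0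
  have h4 : 2 ^ n ≤ h0 := by
    have := Nat.pow_log_le_self 2 (show h0 ≠ 0 by omega)
    rwa [a3] at this
  calc H.card * c0 = H.card * c' * g := by rw [e1]; ring
    _ ≤ 2 ^ (n + 1) * K := Nat.mul_le_mul h3 hgK
    _ = 2 * K * 2 ^ n := by rw [pow_succ]; ring
    _ ≤ 2 * K * h0 := Nat.mul_le_mul_left _ h4

theorem pf_PXC : T_PXC := by
  classical
  intro k s hs
  obtain ⟨K, hK⟩ : ∃ K : ℕ, K = Nat.factorial k := ⟨_, rfl⟩
  have hK1 : 1 ≤ K := by rw [hK]; exact Nat.factorial_pos k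
  have hKr : (1 : ℝ) ≤ K := by exact_mod_cast hK1
  refine ⟨4 ^ s * (2 * K) ^ (s - 2), ?_, ?_⟩
  · refine one_le_mul_of_one_le_of_one_le (one_le_pow₀ (by norm_num)) (one_le_pow₀ ?_)
    linarith
  intro N T a c hN hc hT
  rw [← hK] at hc
  have hL : 0 ≤ Real.log N := Real.log_natCast_nonneg N
  have hR : 0 ≤ 4 ^ s * (2 * (K : ℝ)) ^ (s - 2) * ((T : ℝ) * (1 + Real.log N)) ^ s *
      ∑ h ∈ Ico 1 N, ((h : ℝ) / c h) ^ (s - 2) * ‖a h‖ ^ s :=
    mul_nonneg (by positivity) (sum_nonneg fun h _ => by positivity)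
  rcases (Ico 1 N).eq_empty_or_nonempty with hemp | hne
  · have h1 : {y : UnitAddCircle | 1 ≤ ‖∑ h ∈ Ico 1 N, a h * e (h • y)‖} = ∅ := by
      rw [hemp]
      ext y
      simp
    rw [h1, measureReal_empty]
    exact hR
  have hT1 : 1 ≤ T := (card_pos.2 (hne.image c)).trans_le hT
  have hTr : (1 : ℝ) ≤ T := by exact_mod_cast hT1
  obtain ⟨J, hJd⟩ : ∃ J : ℝ, J = 2 * (T * (1 + Real.log N)) := ⟨_, rfl⟩
  have hJ : 0 < J := by rw [hJd]; positivity
  obtain ⟨κ, hκ⟩ : ∃ κ : ℕ → ℕ × ℕ, κ = fun h => (c h, Nat.log 2 h) := ⟨_, rfl⟩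
  have hcardK : (((Ico 1 N).image κ).card : ℝ) ≤ J := by
    have h1 : (Ico 1 N).image κ ⊆ (Ico 1 N).image c ×ˢ range (Nat.log 2 N + 1) := by
      intro p hp
      rw [mem_image] at hp
      obtain ⟨h, hh, rfl⟩ := hp
      rw [hκ, mem_product]
      refine ⟨mem_image_of_mem c hh, mem_range.2 ?_⟩
      have h2 := Nat.log_mono_right (b := 2) (mem_Ico.1 hh).2.le
      show Nat.log 2 h < Nat.log 2 N + 1
      omega
    have h2 := card_le_card h1
    rw [card_product, card_range] at h2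
    have h3 : (((Ico 1 N).image κ).card : ℝ) ≤ T * ((Nat.log 2 N : ℝ) + 1) := by
      have h4 := h2.trans (Nat.mul_le_mul_right _ hT)
      exact_mod_cast h4
    have h5 : (Nat.log 2 N : ℝ) ≤ 2 * Real.log N := by
      have h6 := Real.natLog_le_logb N 2
      have h7 : Real.logb 2 N ≤ 2 * Real.log N := by
        unfold Real.logb
        rw [div_le_iff₀ (Real.log_pos one_lt_two)]
        have := Real.log_two_gt_d9
        nlinarith
      exact_mod_cast h6.trans h7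
    rw [hJd]
    calc _ ≤ _ := h3
      _ ≤ (T : ℝ) * (2 * Real.log N + 1) := by gcongr
      _ ≤ _ := by nlinarith
  have hsub : {y : UnitAddCircle | 1 ≤ ‖∑ h ∈ Ico 1 N, a h * e (h • y)‖} ⊆
      ⋃ p ∈ (Ico 1 N).image κ, {y : UnitAddCircle | 1 / J ≤
        ‖∑ h ∈ (Ico 1 N).filter (fun h => κ h = p), a h * e (h • y)‖} := by
    intro y hy
    have hy' : 1 ≤ ‖∑ h ∈ Ico 1 N, a h * e (h • y)‖ := hy
    by_contra hcon
    simp only [Set.mem_iUnion, Set.mem_ofPred_eq, not_exists, not_le] at hcon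
    have h1 := sum_fiberwise_of_maps_to (s := Ico 1 N) (t := (Ico 1 N).image κ) (g := κ)
      (fun x hx => mem_image_of_mem κ hx) (fun h => a h * e (h • y))
    rw [← h1] at hy'
    have h2 : ‖∑ p ∈ (Ico 1 N).image κ, ∑ h ∈ Ico 1 N with κ h = p, a h * e (h • y)‖ < 1 := by
      calc _ ≤ ∑ p ∈ (Ico 1 N).image κ, ‖∑ h ∈ Ico 1 N with κ h = p, a h * e (h • y)‖ :=
            norm_sum_le _ _
        _ < ∑ p ∈ (Ico 1 N).image κ, 1 / J :=
            sum_lt_sum_of_nonempty (hne.image κ) fun p hp => hcon p hp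
        _ = (((Ico 1 N).image κ).card : ℝ) * (1 / J) := by rw [sum_const, nsmul_eq_mul]
        _ ≤ J * (1 / J) := mul_le_mul_of_nonneg_right hcardK (by positivity)
        _ = 1 := by field_simp
    linarith
  refine (measureReal_mono hsub (measure_ne_top _ _)).trans
    ((measureReal_biUnion_finset_le _ _).trans ?_)
  have hcl : ∀ p ∈ (Ico 1 N).image κ, volume.real {y : UnitAddCircle | 1 / J ≤
      ‖∑ h ∈ (Ico 1 N).filter (fun h => κ h = p), a h * e (h • y)‖} ≤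
      ∑ h ∈ (Ico 1 N).filter (fun h => κ h = p),
        (2 * J) ^ s * (2 * K) ^ (s - 2) * (((h : ℝ) / c h) ^ (s - 2) * ‖a h‖ ^ s) := by
    intro p hp
    refine (cls _ a J hJ s hs).trans ?_
    rw [mul_sum, mul_sum]
    refine sum_le_sum fun h0 hh0 => ?_
    have hmem : ∀ h ∈ (Ico 1 N).filter (fun h => κ h = p),
        1 ≤ h ∧ p.1 ∣ K * h ∧ Nat.log 2 h = p.2 := by
      intro h hh
      rw [mem_filter] at hh
      obtain ⟨a1, a2⟩ := hh
      rw [hκ] at a2
      rw [← a2]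
      exact ⟨(mem_Ico.1 a1).1, (hc h a1).2, rfl⟩
    have hh0' := mem_filter.1 hh0
    have hp1 : p.1 = c h0 := by
      rw [← hh0'.2, hκ]
    have hc1 : 1 ≤ p.1 := by rw [hp1]; exact (hc h0 hh0'.1).1
    have h7 := cls_card K p.1 p.2 hK1 hc1 _ hmem h0 hh0
    rw [hp1] at h7 hc1
    have hcr : (0 : ℝ) < c h0 := by exact_mod_cast hc1
    have h8 : (((Ico 1 N).filter (fun h => κ h = p)).card : ℝ) ≤ 2 * K * ((h0 : ℝ) / c h0) := by
      rw [← mul_div_assoc, le_div_iff₀ hcr]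
      exact_mod_cast h7
    have h9 : (((Ico 1 N).filter (fun h => κ h = p)).card : ℝ) ^ (s - 2) ≤
        (2 * K) ^ (s - 2) * ((h0 : ℝ) / c h0) ^ (s - 2) := by
      rw [← mul_pow]
      exact pow_le_pow_left₀ (by positivity) h8 _
    calc (2 * J) ^ s * ((((Ico 1 N).filter (fun h => κ h = p)).card : ℝ) ^ (s - 2) *
          ‖a h0‖ ^ s) ≤ (2 * J) ^ s * (((2 * K) ^ (s - 2) * ((h0 : ℝ) / c h0) ^ (s - 2)) *
          ‖a h0‖ ^ s) := by gcongr
      _ = _ := by ring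
  refine (sum_le_sum hcl).trans (le_of_eq ?_)
  rw [sum_fiberwise_of_maps_to (s := Ico 1 N) (t := (Ico 1 N).image κ) (g := κ)
    (fun x hx => mem_image_of_mem κ hx), ← mul_sum]
  have hJs : (2 * J) ^ s = 4 ^ s * ((T : ℝ) * (1 + Real.log N)) ^ s := by
    rw [hJd, ← mul_pow]
    congr 1
    ring
  rw [hJs]
  ring

end Pool.Agent.H69.EN
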